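import Pool.Agent.GBS.Stmts

/-!
# GBS, row SMO: smoothness of `RZ`, `SZ`, `EZ`, `BZ`, and tangentiality of `BZ`
-/

noncomputable section

open scoped ContDiff Topology RealInnerProductSpace
open Set MeasureTheory Matrix

namespace Pool.Agent.GBS.H16

open Pool.Agent.RF Pool.Agent.MVS Pool.Agent.GBS

theorem smo (hE : EpsStatement) (hC : CalStatement) : SmoStatement := by
  intro g h Γ w D
  obtain ⟨-, -, cdM, calg, -, -, -, -, -, ceps, -, cPf, -⟩ := hC
  have hR : ∀ i j, SmM (RZ Γ i j) := by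
    intro i j
    have h1 := (calg _ _ (cdM _ (D.sΓ j) (vx i)) (cdM _ (D.sΓ i) (vx j))).2.1
    have h2 := (calg _ _ ((calg _ _ (D.sΓ i) (D.sΓ j)).2.2.1)
      ((calg _ _ (D.sΓ j) (D.sΓ i)).2.2.1)).2.1
    exact (calg _ _ h1 h2).1
  have hS : ∀ i j, SmM (SZ Γ h i j) := fun i j => (calg _ _ (hR i j) D.sh).2.2.1
  have hC : ∀ j, SmM (fun z => dM vt (Γ j) z * h z) := fun j =>
    (calg _ _ (cdM _ (D.sΓ j) vt) D.sh).2.2.1
  refine ⟨hR, hS, ?_, ?_, ?_⟩
  · refine D.sw.mul ?_
    refine ContDiffOn.sum fun i _ => ContDiffOn.sum fun j _ => ContDiffOn.sum fun k _ =>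
      ContDiffOn.sum fun l _ => ?_
    exact (ceps i j k l).mul (cPf _ _ (hS i j) (hS k l)).1
  · intro i
    refine D.sw.mul ?_
    refine ContDiffOn.sum fun j _ => ContDiffOn.sum fun k _ =>
      ContDiffOn.sum fun l _ => ?_
    exact (ceps i j k l).mul (cPf _ _ (hC j) (hS k l)).1
  · intro z _
    obtain ⟨-, -, -, -, -, -, e7, -⟩ := hE
    have key : ∑ i, z.2 i * BZ Γ h w i z = w z * ∑ j, ∑ k, ∑ l,
        (∑ i, cf z.2 i * eps (cf z.2) i j k l) *
          Pf (cf z.2) (dM vt (Γ j) z * h z) (SZ Γ h k l z) := by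
      have e1 : ∀ i, z.2 i * BZ Γ h w i z = w z * ∑ j, ∑ k, ∑ l,
          (cf z.2 i * eps (cf z.2) i j k l) *
            Pf (cf z.2) (dM vt (Γ j) z * h z) (SZ Γ h k l z) := by
        intro i
        unfold BZ
        rw [mul_left_comm, Finset.mul_sum]
        refine congrArg (fun s => w z * s) (Finset.sum_congr rfl fun j _ => ?_)
        rw [Finset.mul_sum]
        refine Finset.sum_congr rfl fun k _ => ?_
        rw [Finset.mul_sum]
        refine Finset.sum_congr rfl fun l _ => ?_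
        rw [← mul_assoc]
        rfl
      rw [Finset.sum_congr rfl fun i _ => e1 i, ← Finset.mul_sum]
      refine congrArg (fun s => w z * s) ?_
      rw [Finset.sum_comm]
      refine Finset.sum_congr rfl fun j _ => ?_
      rw [Finset.sum_comm]
      refine Finset.sum_congr rfl fun k _ => ?_
      rw [Finset.sum_comm]
      refine Finset.sum_congr rfl fun l _ => ?_
      rw [Finset.sum_mul]
    rw [key]
    have : ∀ j k l, (∑ i, cf z.2 i * eps (cf z.2) i j k l) = 0 := fun j k l => e7 _ j k l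
    simp only [this, zero_mul, Finset.sum_const_zero, mul_zero]

end Pool.Agent.GBS.H16
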